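import Pool.Agent.T2H24.AF.Net

/-!
# The Sato-Tate law over almost all extensions of the base field

`K` is a number field and `G` the Sato-Tate group over `K` of a family as in the problem, for instance
`K = ℚ` and `G = SU(2)` for an elliptic curve without complex multiplication.  The `x_v ∈ G` are elements of
the classes of the primes `v` of `K` (any elements at the finitely many exceptional primes).  Suppose that
the Sato-Tate law holds over `K`.  The theorem is about the same family over the finite extensions `F` of
`K`, of any degrees, with any Galois groups and any signatures: the class of a prime `w` of `F` of residue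
degree one over the prime `v` of `K` is that of `x_v`.  There is no other hypothesis; no continuations of
`L`-functions are assumed.  Let `numFields (F, F)` be the number of fields of which `F ⊗_K F` is the product
(it is two if the Galois group of the normal closure of `F` over `K` is doubly transitive, such as the
symmetric group, and it is at most `[F : K]`).

Let `F_i` be any finite extensions of `K` such that `F_i ⊗_K F_j` is a field for `i ≠ j`.  (For example, this
is true for all extensions with symmetric groups, of any degrees, if no two of them are isomorphic.)  Then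
the deviations from the Sato-Tate law satisfy Bessel's inequality: for a continuous class function `f` the
sum over all `i` of `|(average of f over F_i) - ∫ f|² / (numFields (F_i, F_i) - 1)` is at most the variance
of `f`, in the limit.  So for `numFields (F_i, F_i) ≤ R` the Sato-Tate law holds up to the error `δ` over all
`F_i` except for at most `B`, where `B` does not depend on `K`, on the family or on the `F_i`.
-/

set_option autoImplicit false

namespace Pool.Agent.Results.MP_4c4ce6_nt.AlmostAllFields

open NumberField IsDedekindDomain Filter Topology MeasureTheory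
open scoped TensorProduct

section

variable {F : Type} [Field F] [NumberField F]

/-- The average of `φ` over the primes of `F` of norm at most `N`. -/
noncomputable def avg (φ : HeightOneSpectrum (𝓞 F) → ℂ) (N : ℕ) : ℂ :=
  (∑ᶠ w : {w : HeightOneSpectrum (𝓞 F) // Ideal.absNorm w.asIdeal ≤ N}, φ w.1) /
    (Nat.card {w : HeightOneSpectrum (𝓞 F) // Ideal.absNorm w.asIdeal ≤ N} : ℂ)

variable {G : Type} [Group G]

/-- `f` is a class function. -/
def IsClass (f : G → ℂ) : Prop := ∀ g h, f (h * g * h⁻¹) = f g

/-- **The Sato-Tate law**: the classes of the `x v` are equidistributed. -/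
def Equidistributed [TopologicalSpace G] [MeasurableSpace G] (x : HeightOneSpectrum (𝓞 F) → G)
    (μ : Measure G) : Prop :=
  ∀ f : G → ℂ, Continuous f → IsClass f → Tendsto (avg fun v => f (x v)) atTop (𝓝 (∫ g, f g ∂μ))

/-- `y w` is a conjugate of `x v` for all but finitely many primes `w` of `F` of residue degree one over
the prime `v` of `K` below `w`. -/
def BaseChange {K : Type} [Field K] [NumberField K] [Algebra K F]
    (x : HeightOneSpectrum (𝓞 K) → G) (y : HeightOneSpectrum (𝓞 F) → G) : Prop :=
  ∃ S : Finset (HeightOneSpectrum (𝓞 F)), ∀ w, w ∉ S → ∀ v : HeightOneSpectrum (𝓞 K),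
    w.asIdeal.comap (algebraMap (𝓞 K) (𝓞 F)) = v.asIdeal →
    Ideal.absNorm w.asIdeal = Ideal.absNorm v.asIdeal → ∃ h : G, y w = h * x v * h⁻¹

/-- The number of fields whose product is `F ⊗_K F`. -/
noncomputable def numFields (K F : Type) [Field K] [Field F] [Algebra K F] : ℕ :=
  Nat.card (MaximalSpectrum (F ⊗[K] F))

/-- The deviation from the Sato-Tate law: the absolute value of the difference between the average of
`f(y_w)` over the primes `w` of norm at most `N` and the integral of `f`. -/
noncomputable def deviation [MeasurableSpace G] (μ : Measure G)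
    (y : HeightOneSpectrum (𝓞 F) → G) (f : G → ℂ) (N : ℕ) : ℝ :=
  ‖(avg (fun w => f (y w)) N) - ∫ g, f g ∂μ‖

/-- The variance of `f`. -/
noncomputable def variance [MeasurableSpace G] (μ : Measure G) (f : G → ℂ) : ℝ :=
  ∫ g, ‖f g - ∫ g, f g ∂μ‖ ^ 2 ∂μ

end

/-- The Sato-Tate law holds for `x` over `K`, the `y_i` are base changes of `x` to the `F_i`, and the rings
`F_i ⊗_K F_j`, `i ≠ j`, are fields. -/
def Independent (K : Type) [Field K] [NumberField K] {G : Type} [Group G] [TopologicalSpace G]
    [MeasurableSpace G] (μ : Measure G) (x : HeightOneSpectrum (𝓞 K) → G) {ι : Type}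
    (F : ι → Type) [∀ i, Field (F i)] [∀ i, NumberField (F i)] [∀ i, Algebra K (F i)]
    (y : ∀ i, HeightOneSpectrum (𝓞 (F i)) → G) : Prop :=
  Equidistributed x μ ∧ (∀ i, BaseChange x (y i)) ∧ ∀ i j, i ≠ j → IsField (F i ⊗[K] F j)

section Bridge

set_option linter.unusedSectionVars false

open Pool.Agent.TH553.ST Pool.Agent.TH553.RS Pool.Agent.W540.BE Pool.Agent.T2H24.AF

variable {K : Type} [Field K] [NumberField K]

theorem avg_eq (g : HeightOneSpectrum (𝓞 K) → ℂ) : avg g = mn g := by
  funext N
  have hs : ∀ v, v ∈ upto K N ↔ Ideal.absNorm v.asIdeal ≤ N := fun v => mem_upto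
  let e : {v : HeightOneSpectrum (𝓞 K) // Ideal.absNorm v.asIdeal ≤ N} ≃ (upto K N) :=
    Equiv.subtypeEquivRight fun v => (hs v).symm
  have hfin : Finite {v : HeightOneSpectrum (𝓞 K) // Ideal.absNorm v.asIdeal ≤ N} :=
    Finite.of_equiv _ e.symm
  unfold avg mn
  have h1 : (∑ᶠ v : {v : HeightOneSpectrum (𝓞 K) // Ideal.absNorm v.asIdeal ≤ N}, g v.1) =
      ∑ v ∈ upto K N, g v := by
    rw [← Finset.sum_coe_sort, ← finsum_eq_sum_of_fintype, ← finsum_comp_equiv e]
    rfl
  have h2 : Nat.card {v : HeightOneSpectrum (𝓞 K) // Ideal.absNorm v.asIdeal ≤ N} =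
      (upto K N).card := by
    rw [Nat.card_congr e, Nat.card_eq_fintype_card, Fintype.card_coe]
  rw [h1, h2, Complex.real_smul, div_eq_inv_mul]
  push_cast
  rfl

variable {G : Type} [Group G] [TopologicalSpace G] [IsTopologicalGroup G] [CompactSpace G]
  [MeasurableSpace G] [BorelSpace G] {μ : Measure G} [IsProbabilityMeasure μ]
  {x : HeightOneSpectrum (𝓞 K) → G}

theorem law_real (h : Equidistributed x μ) (f : G → ℝ) (hf : Continuous f)
    (hcl : ∀ g h, f (h * g * h⁻¹) = f g) :
    Tendsto (mn fun v => f (x v)) atTop (𝓝 (∫ g, f g ∂μ)) := by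
  have h1 := h (fun g => (f g : ℂ)) (Complex.continuous_ofReal.comp hf) fun g h => by simp only [hcl]
  have h0 : ∫ g, (f g : ℂ) ∂μ = ((∫ g, f g ∂μ : ℝ) : ℂ) := integral_ofReal
  rw [avg_eq, h0] at h1
  have h2 := (Complex.continuous_re.tendsto _).comp h1
  refine h2.congr fun N => ?_
  simp only [Function.comp]
  rw [re_mn]
  rfl

theorem dev_eq {F : Type} [Field F] [NumberField F] (y : HeightOneSpectrum (𝓞 F) → G) (f : G → ℂ)
    (N : ℕ) : deviation μ y f N = ‖mn (fun w => f (y w)) N - ∫ g, f g ∂μ‖ := by
  unfold deviation
  rw [avg_eq]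

end Bridge

/-- **The Sato-Tate law over almost all extensions.**  Let `G` be a compact group with a Borel probability
measure `μ` (the Haar measure of the Sato-Tate group).

I.  Let `K` be a number field, suppose that the Sato-Tate law holds for `x` over `K`, let `F_i` be finitely
many finite extensions of `K` such that the `F_i ⊗_K F_j`, `i ≠ j`, are fields, and let `y_i` be base
changes of `x` to the `F_i`.  Then for every continuous class function `f` and `η > 0` one has
`∑ deviation_i² / (numFields (F_i, F_i) - 1) ≤ variance of f + η` for all large `N`.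

II.  Let `𝒞` be a compact set of continuous class functions, `R ≥ 0` and `δ > 0`.  There is a number `B` such
that for all `K`, `x`, `F_i`, `y_i` as in I with `numFields (F_i, F_i) ≤ R`, for all large `N`, the deviation
is less than `δ` for all `f ∈ 𝒞` and all but at most `B` of the fields `F_i`. -/
theorem result (G : Type) [Group G] [TopologicalSpace G] [IsTopologicalGroup G] [CompactSpace G]
    [MeasurableSpace G] [BorelSpace G] (μ : Measure G) [IsProbabilityMeasure μ] :
    (∀ (K : Type) [Field K] [NumberField K] (x : HeightOneSpectrum (𝓞 K) → G)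
      (ι : Type) [Fintype ι] (F : ι → Type) [∀ i, Field (F i)] [∀ i, NumberField (F i)]
      [∀ i, Algebra K (F i)] (y : ∀ i, HeightOneSpectrum (𝓞 (F i)) → G), Independent K μ x F y →
      ∀ f : G → ℂ, Continuous f → IsClass f → ∀ η : ℝ, 0 < η → ∀ᶠ N in atTop,
        ∑ i, deviation μ (y i) f N ^ 2 / ((numFields K (F i) : ℝ) - 1) ≤ variance μ f + η) ∧
    ∀ 𝒞 : Set C(G, ℂ), IsCompact 𝒞 → (∀ f ∈ 𝒞, IsClass f) → ∀ (R : ℕ) (δ : ℝ), 0 < δ →
      ∃ B : ℕ, ∀ (K : Type) [Field K] [NumberField K] (x : HeightOneSpectrum (𝓞 K) → G)
        (ι : Type) [Fintype ι] (F : ι → Type) [∀ i, Field (F i)] [∀ i, NumberField (F i)]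
        [∀ i, Algebra K (F i)] (y : ∀ i, HeightOneSpectrum (𝓞 (F i)) → G), Independent K μ x F y →
        (∀ i, numFields K (F i) ≤ R) →
        ∀ᶠ N in atTop, Nat.card {i // ∃ f ∈ 𝒞, δ ≤ deviation μ (y i) f N} ≤ B := by
  constructor
  · intro K _ _ x ι _ F _ _ _ y h f hf hcl η hη
    have h1 := Pool.Agent.T2H24.AF.bessel (μ := μ) (law_real h.1) h.2.1
      (fun i j hij => Pool.Agent.T2H24.AF.card_max (h.2.2 i j hij)) hf hcl hη
    simp only [dev_eq]
    exact h1
  · intro 𝒞 h𝒞 hcl R δ hδ
    obtain ⟨B, hB⟩ := Pool.Agent.T2H24.AF.count_all (μ := μ) h𝒞 hcl R hδ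
    refine ⟨B, ?_⟩
    intro K _ _ x ι _ F _ _ _ y h hR
    have h1 := hB K x ι F y (law_real h.1) h.2.1
      (fun i j hij => Pool.Agent.T2H24.AF.card_max (h.2.2 i j hij)) hR
    simp only [dev_eq]
    exact h1

end Pool.Agent.Results.MP_4c4ce6_nt.AlmostAllFields
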