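import Pool.Agent.T2H24.AT.Net

/-!
# The joint Sato-Tate law for almost all tuples

Let `E_j`, `j ∈ J`, be elliptic curves over a totally real field `K` without complex multiplication, no two of
them isogenous over the algebraic closure of `K`.  The problem for the abelian variety
`E_{t_1} × … × E_{t_k}` with the Sato-Tate group `SU(2)^k` is the joint Sato-Tate law for the tuple
`(t_1, …, t_k)`.  It is known for `k ≤ 2` and open for `k ≥ 3`.  The theorem derives from the laws for single
members and pairs the law for almost all tuples, of any length: in the mean over all the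
`|J|^k` tuples the squares of the correlations are `O(1 / |J|)`, and so for every `δ > 0` the joint
Sato-Tate law holds up to the error `δ` for all but at most `B |J|^(k - 1)` of the `|J|^k` tuples, where `B`
does not depend on `K`, on `J` or on the curves.  No continuations of `L`-functions are assumed.

The general setting is a finite set `J` of families as in the problem over the same number field with the
same Sato-Tate group `G`; the `x_j(v) ∈ G` are elements of the classes of the primes `v` (any elements at the
finitely many exceptional primes).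
-/

set_option autoImplicit false

namespace Pool.Agent.Results.MP_4c4ce6_nt.AlmostAllTuples

open NumberField IsDedekindDomain Filter Topology MeasureTheory ComplexConjugate

/-- The matrix `A` is a scalar matrix. -/
def IsScalar {n : ℕ} (A : Matrix (Fin n) (Fin n) ℂ) : Prop := ∃ c : ℂ, A = c • 1

/-- The matrix `A` is unitary. -/
def IsUnitary {n : ℕ} (A : Matrix (Fin n) (Fin n) ℂ) : Prop := A * star A = 1

/-- A continuous irreducible unitary representation of positive dimension: the only matrices that commute
with all its values are the scalar ones. -/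
structure IrrRep (G : Type) [Group G] [TopologicalSpace G] : Type where
  dim : ℕ
  rep : G → Matrix (Fin dim) (Fin dim) ℂ
  map_one : rep 1 = 1
  map_mul : ∀ g h, rep (g * h) = rep g * rep h
  unitary : ∀ g, IsUnitary (rep g)
  continuous_rep : Continuous rep
  pos : 0 < dim
  irreducible : ∀ A : Matrix (Fin dim) (Fin dim) ℂ, (∀ g, rep g * A = A * rep g) → IsScalar A

/-- Its character. -/
noncomputable def IrrRep.tr {G : Type} [Group G] [TopologicalSpace G] (π : IrrRep G) (g : G) : ℂ :=
  (π.rep g).trace

/-- It is not the trivial representation. -/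
def IrrRep.Nontrivial {G : Type} [Group G] [TopologicalSpace G] (π : IrrRep G) : Prop :=
  ∃ g, π.rep g ≠ 1

/-- `f` is a class function. -/
def IsClass {G : Type} [Group G] (f : G → ℂ) : Prop := ∀ g h, f (h * g * h⁻¹) = f g

section

variable {K : Type} [Field K] [NumberField K]

/-- The average of `φ` over the primes of `K` of norm at most `N`. -/
noncomputable def avg (φ : HeightOneSpectrum (𝓞 K) → ℂ) (N : ℕ) : ℂ :=
  (∑ᶠ w : {w : HeightOneSpectrum (𝓞 K) // Ideal.absNorm w.asIdeal ≤ N}, φ w.1) /
    (Nat.card {w : HeightOneSpectrum (𝓞 K) // Ideal.absNorm w.asIdeal ≤ N} : ℂ)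

/-- **The Sato-Tate law**: the classes of the `x v` are equidistributed. -/
def Equidistributed {G : Type} [Group G] [TopologicalSpace G] [MeasurableSpace G]
    (x : HeightOneSpectrum (𝓞 K) → G) (μ : Measure G) : Prop :=
  ∀ f : G → ℂ, Continuous f → IsClass f → Tendsto (avg fun v => f (x v)) atTop (𝓝 (∫ g, f g ∂μ))

/-- The Sato-Tate law holds for all single members and for all pairs of different members of the family. -/
def PairwiseEquidistributed {G : Type} [Group G] [TopologicalSpace G] [MeasurableSpace G]
    {J : Type} (x : J → HeightOneSpectrum (𝓞 K) → G) (μ : Measure G) : Prop :=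
  (∀ i, Equidistributed (x i) μ) ∧
    ∀ i j, i ≠ j → Equidistributed (fun v => (x i v, x j v)) (μ.prod μ)

/-- The average of `∏ tr π_i(x_{t_i}(v))` over the primes `v` of norm at most `N`. -/
noncomputable def correlation {G : Type} [Group G] [TopologicalSpace G] {J : Type} {k : ℕ}
    (x : J → HeightOneSpectrum (𝓞 K) → G) (π : Fin k → IrrRep G) (t : Fin k → J) (N : ℕ) : ℂ :=
  avg (fun v => ∏ i, (π i).tr (x (t i) v)) N

/-- The deviation from the joint Sato-Tate law for the tuple `(t_1, …, t_k)`: the absolute value of the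
difference between the average of `f(x_{t_1}(v), …, x_{t_k}(v))` over the primes `v` of norm at most `N` and
the integral of `f` over `G^k`. -/
noncomputable def deviation {G : Type} [MeasurableSpace G] {J : Type} {k : ℕ} (μ : Measure G)
    (x : J → HeightOneSpectrum (𝓞 K) → G) (f : (Fin k → G) → ℂ) (t : Fin k → J) (N : ℕ) : ℝ :=
  ‖(avg (fun v => f fun i => x (t i) v) N) - ∫ g, f g ∂(Measure.pi fun _ => μ)‖

end

set_option linter.unusedSectionVars false

section Bridge

open Pool.Agent.T2H24.GR Pool.Agent.TH553.ST Pool.Agent.TH553.RS Pool.Agent.W540.BE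

variable {K : Type} [Field K] [NumberField K]

theorem avg_eq (g : HeightOneSpectrum (𝓞 K) → ℂ) : avg g = mn g := by
  funext N
  have hs : ∀ v, v ∈ upto K N ↔ Ideal.absNorm v.asIdeal ≤ N := fun v => mem_upto
  let e : {v : HeightOneSpectrum (𝓞 K) // Ideal.absNorm v.asIdeal ≤ N} ≃ (upto K N) :=
    Equiv.subtypeEquivRight fun v => (hs v).symm
  have hfin : Finite {v : HeightOneSpectrum (𝓞 K) // Ideal.absNorm v.asIdeal ≤ N} :=
    Finite.of_equiv _ e.symm
  unfold avg mn
  have h1 : (∑ᶠ v : {v : HeightOneSpectrum (𝓞 K) // Ideal.absNorm v.asIdeal ≤ N}, g v.1) =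
      ∑ v ∈ upto K N, g v := by
    rw [← Finset.sum_coe_sort, ← finsum_eq_sum_of_fintype, ← finsum_comp_equiv e]
    rfl
  have h2 : Nat.card {v : HeightOneSpectrum (𝓞 K) // Ideal.absNorm v.asIdeal ≤ N} =
      (upto K N).card := by
    rw [Nat.card_congr e, Nat.card_eq_fintype_card, Fintype.card_coe]
  rw [h1, h2, Complex.real_smul, div_eq_inv_mul]
  push_cast
  rfl

/-- the homomorphism to the unitary group -/
noncomputable def IrrRep.hom {G : Type} [Group G] [TopologicalSpace G] (π : IrrRep G) :
    G →* Matrix.unitaryGroup (Fin π.dim) ℂ where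
  toFun g := ⟨π.rep g, Matrix.mem_unitaryGroup_iff.2 (π.unitary g)⟩
  map_one' := Subtype.ext π.map_one
  map_mul' g h := Subtype.ext (π.map_mul g h)

/-- the same representation for the helper files -/
noncomputable def IrrRep.toIrr {G : Type} [Group G] [TopologicalSpace G] (π : IrrRep G) : Irr G :=
  ⟨π.dim, π.hom, Continuous.subtype_mk π.continuous_rep _, π.irreducible⟩

theorem tr_eq {G : Type} [Group G] [TopologicalSpace G] (π : IrrRep G) (g : G) :
    π.tr g = π.toIrr.c g := rfl

theorem nt_iff {G : Type} [Group G] [TopologicalSpace G] (π : IrrRep G) :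
    π.Nontrivial ↔ ∃ g, π.toIrr.ρ g ≠ 1 := by
  constructor
  · rintro ⟨g, hg⟩
    exact ⟨g, fun h => hg (congrArg Subtype.val h)⟩
  · rintro ⟨g, hg⟩
    exact ⟨g, fun h => hg (Subtype.ext h)⟩

variable {G : Type} [Group G] [TopologicalSpace G] [IsTopologicalGroup G] [CompactSpace G]
  [T2Space G] [SecondCountableTopology G] [MeasurableSpace G] [BorelSpace G] {μ : Measure G}
  [IsProbabilityMeasure μ] [μ.IsHaarMeasure]

theorem pw_of {J : Type} {x : J → HeightOneSpectrum (𝓞 K) → G}
    (h : PairwiseEquidistributed x μ) : Pool.Agent.T2H24.AT.PW μ x := by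
  intro π hnt
  have hn : π.n ≠ 0 := ne_zero_of_nt hnt
  constructor
  · intro l
    have h1 := h.1 l (fun g => π.c g * conj (π.c g)) (π.cc.mul (Complex.continuous_conj.comp π.cc))
      fun g k => by
        have : π.c (k * g * k⁻¹) = π.c g := chi_cls π.ρ g k
        simp only [this]
    rw [avg_eq] at h1
    have h2 : ∫ g, π.c g * conj (π.c g) ∂μ = 1 := by
      have h3 : ∫ g, ‖π.c g‖ ^ 2 ∂μ = 1 := int_sq π.cont π.schur hn
      have h4 : ∀ g, π.c g * conj (π.c g) = ((‖π.c g‖ ^ 2 : ℝ) : ℂ) := fun g => by
        rw [Complex.mul_conj, Complex.normSq_eq_norm_sq]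
      simp only [h4]
      rw [integral_complex_ofReal, h3, Complex.ofReal_one]
    rw [h2] at h1
    exact h1
  · intro l m hlm
    have h1 := h.2 l m hlm (fun p => π.c p.1 * conj (π.c p.2))
      ((π.cc.comp continuous_fst).mul (Complex.continuous_conj.comp (π.cc.comp continuous_snd)))
      fun g k => by
        have h5 : π.c (k.1 * g.1 * k.1⁻¹) = π.c g.1 := chi_cls π.ρ g.1 k.1
        have h6 : π.c (k.2 * g.2 * k.2⁻¹) = π.c g.2 := chi_cls π.ρ g.2 k.2
        change π.c (k.1 * g.1 * k.1⁻¹) * conj (π.c (k.2 * g.2 * k.2⁻¹)) = _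
        rw [h5, h6]
    rw [avg_eq] at h1
    have h2 : ∫ p, π.c p.1 * conj (π.c p.2) ∂(μ.prod μ) = 0 := by
      rw [integral_prod_mul (fun g => π.c g) (fun g => conj (π.c g))]
      have h3 : ∫ g, π.c g ∂μ = 0 := int_chi π.cont π.schur hnt
      rw [h3, zero_mul]
    rw [h2] at h1
    exact h1

end Bridge

/-- **The joint Sato-Tate law for almost all tuples.**  Let `G` be a compact group with its Haar probability
measure `μ` and `k` a natural number.

I.  Let `π_1, …, π_k` be irreducible representations of `G`, not all trivial.  For all number fields `K` and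
finite families `x_j(v) ∈ G`, `j ∈ J`, such that the Sato-Tate law holds for all single members and all
pairs, the sum of the squares of the correlations over all the `|J|^k` tuples is at most
`(∏ (dim π_i)² + 1) |J|^(k - 1)`, for all large `N`.

II.  Let `𝒞` be a compact set of continuous class functions on `G^k` and `δ > 0`.  There is a number `B` such
that for all `K`, `J` and `x` as in I, for all large `N`, the deviation from the joint Sato-Tate law is
less than `δ` for all `f ∈ 𝒞` and all but at most `B |J|^(k - 1)` of the `|J|^k` tuples. -/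
theorem result (G : Type) [Group G] [TopologicalSpace G] [IsTopologicalGroup G] [CompactSpace G]
    [T2Space G] [SecondCountableTopology G] [MeasurableSpace G] [BorelSpace G] (μ : Measure G)
    [IsProbabilityMeasure μ] [μ.IsHaarMeasure] (k : ℕ) :
    (∀ π : Fin k → IrrRep G, (∃ i, (π i).Nontrivial) → ∀ (K : Type) [Field K] [NumberField K]
      (J : Type) [Fintype J] (x : J → HeightOneSpectrum (𝓞 K) → G), PairwiseEquidistributed x μ →
      ∀ᶠ N in atTop, ∑ t : Fin k → J, ‖correlation x π t N‖ ^ 2 ≤
        ((∏ i, ((π i).dim : ℝ) ^ 2) + 1) * (Fintype.card J : ℝ) ^ (k - 1)) ∧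
    ∀ 𝒞 : Set C(Fin k → G, ℂ), IsCompact 𝒞 → (∀ f ∈ 𝒞, IsClass f) → ∀ δ : ℝ, 0 < δ →
      ∃ B : ℕ, ∀ (K : Type) [Field K] [NumberField K] (J : Type) [Fintype J]
        (x : J → HeightOneSpectrum (𝓞 K) → G), PairwiseEquidistributed x μ →
        ∀ᶠ N in atTop, Nat.card {t : Fin k → J // ∃ f ∈ 𝒞, δ ≤ deviation μ x f t N} ≤
          B * Fintype.card J ^ (k - 1) := by
  constructor
  · intro π hπ K _ _ J _ x hx
    obtain ⟨i₀, hi₀⟩ := hπ
    have h1 := Pool.Agent.T2H24.AT.sum_char (μ := μ) (fun i => (π i).toIrr) ((nt_iff _).1 hi₀)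
      (fun i => (π i).pos.ne') (pw_of hx)
    unfold correlation
    simp only [tr_eq, avg_eq]
    exact h1
  · intro 𝒞 h𝒞 hcl δ hδ
    obtain ⟨B, hB⟩ := Pool.Agent.T2H24.AT.count_all (μ := μ) h𝒞 hcl hδ
    refine ⟨B, fun K _ _ J _ x hx => ?_⟩
    have h1 := hB K J x (pw_of hx)
    unfold deviation
    simp only [avg_eq]
    exact h1

end Pool.Agent.Results.MP_4c4ce6_nt.AlmostAllTuples
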