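import Pool.Agent.T2H24.FC.Dir

/-!
# The criterion of Serre as a finite check

Let `G` be a compact connected Lie group, the Sato-Tate group, and let `x_v ∈ G` be the Frobenius elements
of the primes `v` of a number field `K`.  (At the finitely many exceptional primes one may take any
elements.)  The criterion of Serre derives the Sato-Tate law from the continuation of the `L(π, s)` for
*all* nontrivial irreducible representations `π` of `G` to `Re s ≥ 1`, without zeros and poles.  Potential
automorphy, or the method of Brauer, often gives the meromorphic continuation without control on the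
zeros and poles at the point one.  The theorem says that then only finitely many of these functions
need a further look: there is a finite list `Φ` of nontrivial irreducible representations, which depends
only on `G` and neither on `K` nor on the `x_v`, such that the absence of poles at `s = 1` for the members
of `Φ` implies the absence of zeros and poles at `s = 1` for all nontrivial `π` and the Sato-Tate law, for
the Dirichlet density; except in one degenerate case, in which the classes of the `x_v` approach, in the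
mean, the torsion classes killed by a fixed nonzero weight.

The facts about compact connected Lie groups that the proof uses are collected in the structure
`MaximalTorus`: conjugacy of all elements into a maximal torus, the Weyl group, Weyl's integration
formula, and the surjectivity of the restriction from the representation ring of `G` to the invariants of
the Weyl group in the representation ring of the torus.
-/

set_option autoImplicit false

namespace Pool.Agent.Results.MP_4c4ce6_nt.FiniteCheck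

open NumberField IsDedekindDomain Filter Topology MeasureTheory ComplexConjugate

/-- The matrix `A` is a scalar matrix. -/
def IsScalar {n : ℕ} (A : Matrix (Fin n) (Fin n) ℂ) : Prop := ∃ c : ℂ, A = c • 1

/-- The matrix `A` is unitary. -/
def IsUnitary {n : ℕ} (A : Matrix (Fin n) (Fin n) ℂ) : Prop := A * star A = 1

/-- A continuous irreducible unitary representation of positive dimension: the only matrices that commute
with all its values are the scalar ones. -/
structure IrrRep (G : Type) [Group G] [TopologicalSpace G] : Type where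
  dim : ℕ
  rep : G → Matrix (Fin dim) (Fin dim) ℂ
  map_one : rep 1 = 1
  map_mul : ∀ g h, rep (g * h) = rep g * rep h
  unitary : ∀ g, IsUnitary (rep g)
  continuous_rep : Continuous rep
  pos : 0 < dim
  irreducible : ∀ A : Matrix (Fin dim) (Fin dim) ℂ, (∀ g, rep g * A = A * rep g) → IsScalar A

/-- Its character. -/
noncomputable def IrrRep.tr {G : Type} [Group G] [TopologicalSpace G] (π : IrrRep G) (g : G) : ℂ :=
  (π.rep g).trace

/-- It is not the trivial representation. -/
def IrrRep.Nontrivial {G : Type} [Group G] [TopologicalSpace G] (π : IrrRep G) : Prop :=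
  ∃ g, π.rep g ≠ 1

/-! ## Tori -/

/-- The torus `(ℝ/ℤ)^r`. -/
abbrev Torus (r : ℕ) : Type := UnitAddTorus (Fin r)

/-- Its normalised Haar measure. -/
noncomputable def haarTorus (r : ℕ) : Measure (Torus r) := Measure.pi fun _ => AddCircle.haarAddCircle

/-- The character `t ↦ exp (2πi ∑ κ_j t_j)` of the torus, for a weight `κ ∈ ℤ^r`. -/
noncomputable def chi {r : ℕ} (κ : Fin r → ℤ) (t : Torus r) : ℂ := UnitAddTorus.mFourier κ t

/-- The sum of the characters with the weights `w_i κ`. -/
noncomputable def orbitSum {r N : ℕ} (w : Fin N → (Fin r → ℤ) → Fin r → ℤ) (κ : Fin r → ℤ)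
    (t : Torus r) : ℂ := ∑ i, chi (w i κ) t

/-- The product of the `1 - α(t)` over the roots `α`. -/
noncomputable def weylFactor {r m : ℕ} (α : Fin m → Fin r → ℤ) (t : Torus r) : ℂ :=
  ∏ j, (1 - chi (α j) t)

/-- The functions `w_1, …, w_N` are automorphisms of the lattice `ℤ^r`, which permute the roots. -/
def WeylGroup {r m N : ℕ} (w : Fin N → (Fin r → ℤ) → Fin r → ℤ) (α : Fin m → Fin r → ℤ) : Prop :=
  0 < N ∧ (∀ i, Function.Bijective (w i)) ∧ (∀ i κ l, w i (κ + l) = w i κ + w i l) ∧
    (∀ j, α j ≠ 0) ∧ ∀ i, ∃ σ : Equiv.Perm (Fin m), ∀ j, w i (α j) = α (σ j)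

section

variable {G : Type} [Group G] [TopologicalSpace G]

/-- A continuous homomorphism from the torus `(ℝ/ℤ)^r` whose conjugates cover the group. -/
def IsTorus {r : ℕ} (ι : Torus r → G) : Prop :=
  Continuous ι ∧ (∀ s t, ι (s + t) = ι s * ι t) ∧ ∀ g, ∃ h t, g = h * ι t * h⁻¹

/-- The automorphisms `w_i`, acting on the torus by duality, are induced by conjugations. -/
def Inner {r N : ℕ} (ι : Torus r → G) (w : Fin N → (Fin r → ℤ) → Fin r → ℤ) : Prop :=
  ∀ i s t, (∀ κ, chi κ s = chi (w i κ) t) → ∃ h, ι s = h * ι t * h⁻¹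

/-- Weyl's integration formula. -/
def IntegrationFormula [MeasurableSpace G] (μ : Measure G) {r m : ℕ} (N : ℕ) (ι : Torus r → G)
    (α : Fin m → Fin r → ℤ) : Prop :=
  (∀ t, (weylFactor α t).im = 0 ∧ 0 ≤ (weylFactor α t).re) ∧
    ∀ f : G → ℂ, Continuous f → (∀ g h, f (h * g * h⁻¹) = f g) →
      (N : ℂ) * ∫ g, f g ∂μ = ∫ t, f (ι t) * weylFactor α t ∂(haarTorus r)

/-- The function on the torus is the restriction of a virtual character: an integral linear combination
of irreducible characters of the group. -/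
def IsVirtual {r : ℕ} (ι : Torus r → G) (f : Torus r → ℂ) : Prop :=
  ∃ (J : Type) (_ : Fintype J) (π : J → IrrRep G) (a : J → ℤ),
    ∀ t, f t = ∑ j, (a j : ℂ) * (π j).tr (ι t)

/-- A maximal torus of rank `r` of the compact group with the Haar measure `μ`, its Weyl group with `N`
elements and its `m` roots: the classical facts for compact connected Lie groups. -/
structure MaximalTorus (G : Type) [Group G] [TopologicalSpace G] [MeasurableSpace G] (μ : Measure G)
    (r m N : ℕ) : Type where
  /-- the torus -/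
  ι : Torus r → G
  isTorus : IsTorus ι
  /-- the action of the elements of the Weyl group on the weights -/
  w : Fin N → (Fin r → ℤ) → Fin r → ℤ
  /-- the roots -/
  α : Fin m → Fin r → ℤ
  weylGroup : WeylGroup w α
  inner : Inner ι w
  integrationFormula : IntegrationFormula μ N ι α
  /-- the orbit sums are virtual characters -/
  virtual : ∀ κ, IsVirtual ι (orbitSum w κ)

end

/-! ## Primes -/

section

variable {K : Type} [Field K] [NumberField K]

/-- The average of `φ` over the primes of `K` of norm at most `M`. -/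
noncomputable def avg (φ : HeightOneSpectrum (𝓞 K) → ℂ) (M : ℕ) : ℂ :=
  (∑ᶠ w : {w : HeightOneSpectrum (𝓞 K) // Ideal.absNorm w.asIdeal ≤ M}, φ w.1) /
    (Nat.card {w : HeightOneSpectrum (𝓞 K) // Ideal.absNorm w.asIdeal ≤ M} : ℂ)

/-- The average of `φ` over the primes of `K` with the weights `q_v^{-(1 + ε)}`. -/
noncomputable def davg (φ : HeightOneSpectrum (𝓞 K) → ℝ) (ε : ℝ) : ℝ :=
  (∑' v : HeightOneSpectrum (𝓞 K), φ v * (Ideal.absNorm v.asIdeal : ℝ) ^ (-(1 + ε))) /
    ∑' v : HeightOneSpectrum (𝓞 K), (Ideal.absNorm v.asIdeal : ℝ) ^ (-(1 + ε))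

variable {G : Type} [Group G] [TopologicalSpace G]

/-- **The Sato-Tate law.**  The classes of the `x_v` are equidistributed: for all continuous class
functions `f` the averages of `f(x_v)` over the primes with `q_v ≤ M` tend to `∫ f` for `M → ∞`. -/
def Equidistributed [MeasurableSpace G] (x : HeightOneSpectrum (𝓞 K) → G) (μ : Measure G) : Prop :=
  ∀ f : G → ℂ, Continuous f → (∀ g h, f (h * g * h⁻¹) = f g) →
    Tendsto (avg fun v => f (x v)) atTop (𝓝 (∫ g, f g ∂μ))

/-- **The Sato-Tate law for the Dirichlet density.** -/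
def DirichletEquidistributed [MeasurableSpace G] (x : HeightOneSpectrum (𝓞 K) → G)
    (μ : Measure G) : Prop :=
  ∀ f : G → ℝ, Continuous f → (∀ g h, f (h * g * h⁻¹) = f g) →
    Tendsto (davg fun v => f (x v)) (𝓝[>] 0) (𝓝 (∫ g, f g ∂μ))

/-- The Euler product `L(π, s)`. -/
noncomputable def LFun (x : HeightOneSpectrum (𝓞 K) → G) (π : IrrRep G) (s : ℂ) : ℂ :=
  ∏' v : HeightOneSpectrum (𝓞 K),
    (Matrix.det (1 - ((Ideal.absNorm v.asIdeal : ℂ) ^ (-s)) • π.rep (x v)))⁻¹

/-- `Λ` is a meromorphic continuation of `L(π, s)` to a neighbourhood of `1 + iτ`. -/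
def IsContinuation (x : HeightOneSpectrum (𝓞 K) → G) (π : IrrRep G) (τ : ℝ) (Λ : ℂ → ℂ) : Prop :=
  MeromorphicAt Λ (1 + τ * Complex.I) ∧
    ∀ᶠ s in 𝓝 ((1 : ℂ) + τ * Complex.I), (1 : ℝ) < s.re → Λ s = LFun x π s

/-- `L(π, s)` has a meromorphic continuation to a neighbourhood of `s = 1`, without a pole there. -/
def NoPole (x : HeightOneSpectrum (𝓞 K) → G) (π : IrrRep G) : Prop :=
  ∃ Λ, IsContinuation x π 0 Λ ∧ 0 ≤ meromorphicOrderAt Λ 1

/-- `L(π, s)` has a meromorphic continuation to a neighbourhood of `s = 1`, with neither a zero nor a pole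
there. -/
def NoZeroNoPole (x : HeightOneSpectrum (𝓞 K) → G) (π : IrrRep G) : Prop :=
  ∃ Λ, IsContinuation x π 0 Λ ∧ meromorphicOrderAt Λ 1 = 0

/-- The nontrivial continuous characters of `G` have average `0` along `x_v`. -/
def CharactersCancel (x : HeightOneSpectrum (𝓞 K) → G) : Prop :=
  ∀ χ : G →* Circle, Continuous χ → (∃ g, χ g ≠ 1) →
    Tendsto (avg fun v => ((χ (x v) : Circle) : ℂ)) atTop (𝓝 0)

/-- The degenerate case.  For a nonzero weight `κ` and a sign `s`, the class function `F` on `G` which is on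
the torus the sum of the `N` characters with the weights `w_i κ` satisfies `F(x_v) → s N` in the quadratic
mean over the primes: up to density zero, all the `N` numbers `(w_i κ)(t_v)`, where `t_v` is the class of
`x_v` in the torus, are close to `s`. -/
def Degenerate [MeasurableSpace G] {μ : Measure G} {r m N : ℕ} (𝒯 : MaximalTorus G μ r m N)
    (x : HeightOneSpectrum (𝓞 K) → G) : Prop :=
  ∃ (κ : Fin r → ℤ) (s : ℝ) (F : G → ℂ), κ ≠ 0 ∧ (s = 1 ∨ s = -1) ∧ Continuous F ∧
    (∀ g h, F (h * g * h⁻¹) = F g) ∧ (∀ t, F (𝒯.ι t) = orbitSum 𝒯.w κ t) ∧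
    Tendsto (davg fun v => ‖F (x v) - s * N‖ ^ 2) (𝓝[>] 0) (𝓝 0)

end

set_option linter.unusedSectionVars false

section Bridge

open Pool.Agent.T2H24.GR Pool.Agent.T2H24.FC Pool.Agent.TH553.ST Pool.Agent.TH553.RS
  Pool.Agent.W540.BE

variable {K : Type} [Field K] [NumberField K]

theorem avg_eq (g : HeightOneSpectrum (𝓞 K) → ℂ) : avg g = mn g := by
  funext N
  have hs : ∀ v, v ∈ upto K N ↔ Ideal.absNorm v.asIdeal ≤ N := fun v => mem_upto
  let e : {v : HeightOneSpectrum (𝓞 K) // Ideal.absNorm v.asIdeal ≤ N} ≃ (upto K N) :=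
    Equiv.subtypeEquivRight fun v => (hs v).symm
  have hfin : Finite {v : HeightOneSpectrum (𝓞 K) // Ideal.absNorm v.asIdeal ≤ N} :=
    Finite.of_equiv _ e.symm
  unfold avg mn
  have h1 : (∑ᶠ v : {v : HeightOneSpectrum (𝓞 K) // Ideal.absNorm v.asIdeal ≤ N}, g v.1) =
      ∑ v ∈ upto K N, g v := by
    rw [← Finset.sum_coe_sort, ← finsum_eq_sum_of_fintype, ← finsum_comp_equiv e]
    rfl
  have h2 : Nat.card {v : HeightOneSpectrum (𝓞 K) // Ideal.absNorm v.asIdeal ≤ N} =
      (upto K N).card := by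
    rw [Nat.card_congr e, Nat.card_eq_fintype_card, Fintype.card_coe]
  rw [h1, h2, Complex.real_smul, div_eq_inv_mul]
  push_cast
  rfl

theorem davg_eq (g : HeightOneSpectrum (𝓞 K) → ℝ) (ε : ℝ) :
    davg g ε = EP (nm K) ε g / EP (nm K) ε fun _ => 1 := by
  unfold davg EP
  simp only [one_mul]
  rfl

theorem davg_iff (g : HeightOneSpectrum (𝓞 K) → ℝ) (c : ℝ) :
    Tendsto (davg g) (𝓝[>] 0) (𝓝 c) ↔ Tendsto (qt (nm K) g) (𝓝[>] 0) (𝓝 c) := by
  have h1 := (sysF K).one
  have h2 : ∀ᶠ ε : ℝ in 𝓝[>] 0, (0 : ℝ) < qt (nm K) (fun _ => 1) ε :=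
    h1.eventually_const_lt zero_lt_one
  constructor
  · intro h
    have h3 := h.mul h1
    rw [mul_one] at h3
    refine h3.congr' ?_
    filter_upwards [h2] with ε h4
    rw [davg_eq]
    unfold qt at *
    have h5 : EP (nm K) ε (fun _ => 1) ≠ 0 := by
      intro h6
      rw [h6, zero_div] at h4
      exact lt_irrefl _ h4
    field_simp
  · intro h
    have h3 := h.div h1 one_ne_zero
    rw [_root_.div_one] at h3
    refine h3.congr' ?_
    filter_upwards [h2, Pool.Agent.H341R2.lam_tendsto.eventually_gt_atTop 0] with ε h4 h7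
    rw [davg_eq]
    unfold qt at *
    have h5 : EP (nm K) ε (fun _ => 1) ≠ 0 := by
      intro h6
      rw [h6, zero_div] at h4
      exact lt_irrefl _ h4
    simp only [Pi.div_apply]
    field_simp

variable {G : Type} [Group G] [TopologicalSpace G]

/-- the homomorphism to the unitary group -/
noncomputable def IrrRep.hom (π : IrrRep G) : G →* Matrix.unitaryGroup (Fin π.dim) ℂ where
  toFun g := ⟨π.rep g, Matrix.mem_unitaryGroup_iff.2 (π.unitary g)⟩
  map_one' := Subtype.ext π.map_one
  map_mul' g h := Subtype.ext (π.map_mul g h)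

/-- the same representation for the helper files -/
noncomputable def IrrRep.toIrr (π : IrrRep G) : Irr G :=
  ⟨π.dim, π.hom, Continuous.subtype_mk π.continuous_rep _, π.irreducible⟩

/-- and back -/
noncomputable def ofIrr (r : Irr G) (h : 0 < r.n) : IrrRep G where
  dim := r.n
  rep g := (r.ρ g : Matrix (Fin r.n) (Fin r.n) ℂ)
  map_one := by rw [map_one]; rfl
  map_mul g h := by rw [map_mul]; rfl
  unitary g := Matrix.mem_unitaryGroup_iff.1 (r.ρ g).2
  continuous_rep := continuous_subtype_val.comp r.cont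
  pos := h
  irreducible := r.schur

theorem tr_eq (π : IrrRep G) (g : G) : π.tr g = π.toIrr.c g := rfl

theorem ofIrr_hom (r : Irr G) (h : 0 < r.n) : (ofIrr r h).hom = r.ρ := rfl

theorem LFun_eq (x : HeightOneSpectrum (𝓞 K) → G) (π : IrrRep G) :
    LFun x π = Pool.Agent.TH553.ST.L1 π.hom x := rfl

theorem con_iff (x : HeightOneSpectrum (𝓞 K) → G) (π : IrrRep G) (τ : ℝ) (Λ : ℂ → ℂ) :
    IsContinuation x π τ Λ ↔ Con1 π.toIrr x τ Λ := Iff.rfl

theorem con_iff' (x : HeightOneSpectrum (𝓞 K) → G) (r : Irr G) (h : 0 < r.n) (τ : ℝ) (Λ : ℂ → ℂ) :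
    IsContinuation x (ofIrr r h) τ Λ ↔ Con1 r x τ Λ := Iff.rfl

theorem nt_iff (π : IrrRep G) : π.Nontrivial ↔ ∃ g, π.toIrr.ρ g ≠ 1 := by
  constructor
  · rintro ⟨g, hg⟩
    exact ⟨g, fun h => hg (congrArg Subtype.val h)⟩
  · rintro ⟨g, hg⟩
    exact ⟨g, fun h => hg (Subtype.ext h)⟩

theorem nt_iff' (r : Irr G) (h : 0 < r.n) : (ofIrr r h).Nontrivial ↔ ∃ g, r.ρ g ≠ 1 := by
  constructor
  · rintro ⟨g, hg⟩
    exact ⟨g, fun h => hg (congrArg Subtype.val h)⟩
  · rintro ⟨g, hg⟩
    exact ⟨g, fun h => hg (Subtype.ext h)⟩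

/-- the structure of the helper files -/
noncomputable def toWT [MeasurableSpace G] {μ : Measure G} {r m N : ℕ}
    (𝒯 : MaximalTorus G μ r m N) : WT μ r m N where
  ι := 𝒯.ι
  add := 𝒯.isTorus.2.1
  cont := 𝒯.isTorus.1
  surj := 𝒯.isTorus.2.2
  w i := AddEquiv.ofBijective (AddMonoidHom.mk' (𝒯.w i) (𝒯.weylGroup.2.2.1 i)) (𝒯.weylGroup.2.1 i)
  pos := 𝒯.weylGroup.1
  inv i t s h := 𝒯.inner i s t h
  α := 𝒯.α
  ne := 𝒯.weylGroup.2.2.2.1
  perm := 𝒯.weylGroup.2.2.2.2
  nn t := Complex.nonneg_iff.2 ⟨(𝒯.integrationFormula.1 t).2, (𝒯.integrationFormula.1 t).1.symm⟩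
  weyl := 𝒯.integrationFormula.2
  char κ := by
    obtain ⟨J, iJ, π, a, h⟩ := 𝒯.virtual κ
    exact ⟨J, iJ, fun j => (π j).toIrr, a, h⟩

end Bridge

/-- **The criterion of Serre as a finite check.**  Let `G` be a compact group with its Haar probability
measure `μ` and a maximal torus in the sense of `MaximalTorus` (for instance a compact connected Lie
group).  There is a finite family `Φ` of nontrivial irreducible representations of `G` with the following
property.  Let `K` be a number field and `x_v ∈ G` for the primes `v` of `K`, such that the `L(π, s)` for the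
nontrivial irreducible `π` have meromorphic continuations to neighbourhoods of `s = 1`, and that those of
the members of `Φ` have no pole at `s = 1`.  Then the `x_v` are in the degenerate case, or

* all `L(π, s)` with nontrivial irreducible `π` have neither a zero nor a pole at `s = 1`,
* the Sato-Tate law for the Dirichlet density holds,
* and if the nontrivial characters of `G` have average `0` along `x_v` and the `L(π, s)` with nontrivial
  `π` have meromorphic continuations to neighbourhoods of all points of `Re s = 1`, with unknown orders,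
  then the Sato-Tate law (for the natural density) holds. -/
theorem result (G : Type) [Group G] [TopologicalSpace G] [IsTopologicalGroup G] [CompactSpace G]
    [T2Space G] [MeasurableSpace G] [BorelSpace G] (μ : Measure G) [IsProbabilityMeasure μ]
    [μ.IsHaarMeasure] (r m N : ℕ) (𝒯 : MaximalTorus G μ r m N) :
    ∃ (J : Type) (_ : Finite J) (Φ : J → IrrRep G), (∀ j, (Φ j).Nontrivial) ∧
      ∀ (K : Type) [Field K] [NumberField K] (x : HeightOneSpectrum (𝓞 K) → G),
        (∀ π : IrrRep G, π.Nontrivial → ∃ Λ, IsContinuation x π 0 Λ) → (∀ j, NoPole x (Φ j)) →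
        Degenerate 𝒯 x ∨
          ((∀ π : IrrRep G, π.Nontrivial → NoZeroNoPole x π) ∧ DirichletEquidistributed x μ ∧
            (CharactersCancel x →
              (∀ π : IrrRep G, π.Nontrivial → ∀ τ : ℝ, ∃ Λ, IsContinuation x π τ Λ) →
              Equidistributed x μ)) := by
  obtain ⟨J, iJ, ρ, h1, h2, h3⟩ := Pool.Agent.T2H24.FC.main (toWT 𝒯)
  refine ⟨J, inferInstance, fun j => ofIrr (ρ j) (Nat.pos_of_ne_zero (h2 j)),
    fun j => (nt_iff' _ _).2 (h1 j), ?_⟩
  intro K _ _ x hc hp
  have hc' : ∀ π : Pool.Agent.T2H24.GR.Irr G, π.n ≠ 0 → (∃ g, π.ρ g ≠ 1) →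
      ∃ Λ, Pool.Agent.T2H24.FC.Con1 π x 0 Λ := by
    intro π hn hnt
    obtain ⟨Λ, hΛ⟩ := hc (ofIrr π (Nat.pos_of_ne_zero hn)) ((nt_iff' _ _).2 hnt)
    exact ⟨Λ, (con_iff' _ _ _ _ _).1 hΛ⟩
  have hp' : ∀ j, ∃ Λ, Pool.Agent.T2H24.FC.Con1 (ρ j) x 0 Λ ∧ 0 ≤ meromorphicOrderAt Λ 1 := by
    intro j
    obtain ⟨Λ, hΛ, h0⟩ := hp j
    exact ⟨Λ, (con_iff' _ _ _ _ _).1 hΛ, h0⟩
  rcases h3 K x hc' hp' with hM | ⟨κ, s, F, hκ, hs, hF, hcl, hFt, hlim⟩
  · right
    have hne : (𝓝[>] (0 : ℝ)).NeBot := inferInstance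
    have hord : ∀ (π : IrrRep G), π.Nontrivial → ∀ Λ, IsContinuation x π 0 Λ →
        meromorphicOrderAt Λ 1 = 0 := by
      intro π hnt Λ hΛ
      obtain ⟨k, hk1, hk2⟩ := Pool.Agent.T2H24.FC.order_mean0 ((con_iff _ _ _ _).1 hΛ)
      have h4 := hk2 (Ultrafilter.of (𝓝[>] (0 : ℝ))) (Ultrafilter.of_le _)
      rw [hM _ ((nt_iff π).1 hnt) _ (Ultrafilter.of_le _)] at h4
      have h5 : k = 0 := by exact_mod_cast h4.symm
      rw [hk1, h5]
      rfl
    refine ⟨fun π hnt => ?_, fun f hf hcl => ?_, fun hab hcont f hf hcl => ?_⟩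
    · obtain ⟨Λ, hΛ⟩ := hc π hnt
      exact ⟨Λ, hΛ, hord π hnt Λ hΛ⟩
    · refine (davg_iff _ _).2 ?_
      refine Pool.Agent.T2H24.FC.dir_law (μ := μ) (Pool.Agent.TH553.RS.sysF K)
        (fun π hnt U hU => ⟨hM π hnt U hU, ?_⟩) hf hcl
      have hn : π.n ≠ 0 := Pool.Agent.TH553.ST.ne_zero_of_nt hnt
      obtain ⟨Λ, hΛ⟩ := hc' π hn hnt
      have h6 := hord (ofIrr π (Nat.pos_of_ne_zero hn)) ((nt_iff' _ _).2 hnt) Λ
        ((con_iff' _ _ _ _ _).2 hΛ)
      exact Pool.Agent.T2H24.FC.im_zero hΛ h6 hU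
    · rw [avg_eq]
      refine Pool.Agent.T2H24.FC.order_line (μ := μ) hM (fun χ hχ hnt => ?_)
        (fun π hn hnt τ => ?_) hf hcl
      · rw [← avg_eq]
        exact hab χ hχ hnt
      · obtain ⟨Λ, hΛ⟩ := hcont (ofIrr π (Nat.pos_of_ne_zero hn)) ((nt_iff' _ _).2 hnt) τ
        exact ⟨Λ, (con_iff' _ _ _ _ _).1 hΛ⟩
  · left
    exact ⟨κ, s, F, hκ, hs, hF, hcl, hFt, (davg_iff _ _).2 hlim⟩

end Pool.Agent.Results.MP_4c4ce6_nt.FiniteCheck
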