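import Pool.Agent.T2H24.GR.Fin

/-!
# From single factors and pairs to products of Sato-Tate groups

The Sato-Tate group is a finite product of compact groups `H_i`, and the classes of the primes `v` of a
number field `K` are those of the families `(x_{v,i})_i`, as for the sum of several motives whose motivic
Galois groups are independent.  (At the finitely many exceptional primes one may take any elements.)  The
criterion of Serre derives the equidistribution in the product from the continuation to `Re s ≥ 1`,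
without zeros and poles, of all `L(⊠ π_i, s)`, `π_i` irreducible representations of the `H_i`, not all
trivial.  The theorem replaces the knowledge of zeros and poles by equidistribution on subfamilies.

* Unconditionally: if there are at least three factors and every proper subfamily is equidistributed,
  then all the `L(⊠ π_i, s)` satisfy `ε^c ≤ |L(⊠ π_i, 1 + iτ + ε)| ≤ ε^(-c)` for small `ε > 0`, with an
  explicit exponent `c < 1` as soon as one `π_i` is not one-dimensional (a zero or a pole has `c = 1` or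
  more).
* If the `L(⊠ π_i, s)` have meromorphic continuations to neighbourhoods of the points of `Re s = 1`, with
  unknown orders, then the equidistribution in the product follows from the equidistribution of all
  pairs, and even from the equidistribution of all single factors, if no two factors are linked by a
  relation between characters that holds up to density zero in the mean.
-/

set_option autoImplicit false

namespace Pool.Agent.Results.MP_4c4ce6_nt.GoursatRibet

open NumberField IsDedekindDomain Filter Topology MeasureTheory ComplexConjugate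

/-- The matrix `A` is a scalar matrix. -/
def IsScalar {n : ℕ} (A : Matrix (Fin n) (Fin n) ℂ) : Prop := ∃ c : ℂ, A = c • 1

/-- The matrix `A` is unitary. -/
def IsUnitary {n : ℕ} (A : Matrix (Fin n) (Fin n) ℂ) : Prop := A * star A = 1

/-- A continuous irreducible unitary representation of positive dimension: the only matrices that commute
with all its values are the scalar ones. -/
structure IrrRep (G : Type) [Group G] [TopologicalSpace G] : Type where
  dim : ℕ
  rep : G → Matrix (Fin dim) (Fin dim) ℂ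
  map_one : rep 1 = 1
  map_mul : ∀ g h, rep (g * h) = rep g * rep h
  unitary : ∀ g, IsUnitary (rep g)
  continuous_rep : Continuous rep
  pos : 0 < dim
  irreducible : ∀ A : Matrix (Fin dim) (Fin dim) ℂ, (∀ g, rep g * A = A * rep g) → IsScalar A

/-- Its character. -/
noncomputable def IrrRep.tr {G : Type} [Group G] [TopologicalSpace G] (π : IrrRep G) (g : G) : ℂ :=
  (π.rep g).trace

/-- The tensor product of matrices. -/
noncomputable def tens {I : Type} [Fintype I] {n : I → ℕ}
    (A : ∀ i, Matrix (Fin (n i)) (Fin (n i)) ℂ) : Matrix (∀ i, Fin (n i)) (∀ i, Fin (n i)) ℂ :=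
  Matrix.of fun a b => ∏ i, A i (a i) (b i)

section

variable {K : Type} [Field K] [NumberField K]

/-- The average of `φ` over the primes of `K` of norm at most `N`. -/
noncomputable def avg (φ : HeightOneSpectrum (𝓞 K) → ℂ) (N : ℕ) : ℂ :=
  (∑ᶠ w : {w : HeightOneSpectrum (𝓞 K) // Ideal.absNorm w.asIdeal ≤ N}, φ w.1) /
    (Nat.card {w : HeightOneSpectrum (𝓞 K) // Ideal.absNorm w.asIdeal ≤ N} : ℂ)

/-- The average of `φ` over the primes of `K` with the weights `q_v^{-(1 + ε)}`. -/
noncomputable def davg (φ : HeightOneSpectrum (𝓞 K) → ℝ) (ε : ℝ) : ℝ :=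
  (∑' v : HeightOneSpectrum (𝓞 K), φ v * (Ideal.absNorm v.asIdeal : ℝ) ^ (-(1 + ε))) /
    ∑' v : HeightOneSpectrum (𝓞 K), (Ideal.absNorm v.asIdeal : ℝ) ^ (-(1 + ε))

variable {I : Type} [Fintype I] [DecidableEq I] {H : I → Type} [∀ i, Group (H i)]
  [∀ i, TopologicalSpace (H i)]

/-- The classes of `(x_{v,i})_{i ∈ J}` are equidistributed in `∏_{i ∈ J} H_i`: for all continuous class
functions `f` on `∏ H_i` that depend only on the coordinates in `J`, the averages of `f(x_v)` over the
primes with `q_v ≤ N` tend to `∫ f` for `N → ∞`. -/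
def EquidistributedOn [∀ i, MeasurableSpace (H i)] (x : HeightOneSpectrum (𝓞 K) → ∀ i, H i)
    (μ : ∀ i, Measure (H i)) (J : Finset I) : Prop :=
  ∀ f : (∀ i, H i) → ℂ, Continuous f → (∀ g h, f (h * g * h⁻¹) = f g) → DependsOn f (J : Set I) →
    Tendsto (avg fun v => f (x v)) atTop (𝓝 (∫ g, f g ∂(Measure.pi μ)))

/-- The Euler product `L(⊠ π_i, s)`. -/
noncomputable def LFun (x : HeightOneSpectrum (𝓞 K) → ∀ i, H i) (π : ∀ i, IrrRep (H i)) (s : ℂ) : ℂ :=
  ∏' v : HeightOneSpectrum (𝓞 K), (Matrix.det (1 - ((Ideal.absNorm v.asIdeal : ℂ) ^ (-s)) •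
    tens fun i => (π i).rep (x v i)))⁻¹

/-- `log |L(⊠ π_i, 1 + iτ + ε)| / log (1/ε)`. -/
noncomputable def size (x : HeightOneSpectrum (𝓞 K) → ∀ i, H i) (π : ∀ i, IrrRep (H i))
    (τ ε : ℝ) : ℝ :=
  Real.log ‖LFun x π (1 + τ * Complex.I + ε)‖ / Real.log (1 / ε)

/-- `Λ` is a meromorphic continuation of `L(⊠ π_i, s)` to a neighbourhood of `1 + iτ`. -/
def IsContinuation (x : HeightOneSpectrum (𝓞 K) → ∀ i, H i) (π : ∀ i, IrrRep (H i)) (τ : ℝ)
    (Λ : ℂ → ℂ) : Prop :=
  MeromorphicAt Λ (1 + τ * Complex.I) ∧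
    ∀ᶠ s in 𝓝 ((1 : ℂ) + τ * Complex.I), (1 : ℝ) < s.re → Λ s = LFun x π s

/-- All `L(⊠ π_i, s)` with irreducible `π_i`, not all trivial, have meromorphic continuations to
neighbourhoods of all points of the line `Re s = 1`. -/
def HasContinuations (x : HeightOneSpectrum (𝓞 K) → ∀ i, H i) : Prop :=
  ∀ π : ∀ i, IrrRep (H i), (∃ i g, (π i).rep g ≠ 1) → ∀ τ : ℝ, ∃ Λ, IsContinuation x π τ Λ

/-- The nontrivial continuous characters of `∏ H_i` have average `0` along `x_v`. -/
def CharactersCancel (x : HeightOneSpectrum (𝓞 K) → ∀ i, H i) : Prop :=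
  ∀ χ : (∀ i, H i) →* Circle, Continuous χ → (∃ g, χ g ≠ 1) →
    Tendsto (avg fun v => ((χ (x v) : Circle) : ℂ)) atTop (𝓝 0)

/-- The exponent `1 - (M - 1) / (2 (d + 1)²)` of a representation of dimension `d` whose character has
the fourth moment `M`. -/
noncomputable def exponent {G : Type} [Group G] [TopologicalSpace G] [MeasurableSpace G]
    (μ : Measure G) (π : IrrRep G) : ℝ :=
  1 - ((∫ g, ‖π.tr g‖ ^ 4 ∂μ) - 1) / (2 * ((π.dim : ℝ) + 1) ^ 2)

/-- The factors `i` and `j` are linked: there are irreducible representations `a` of `H_i` and `b` of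
`H_j` of dimension at least two, a real number `τ` and a sign `ζ`, such that the relation
`tr a(x_{v,i}) = ζ · conj (tr b(x_{v,j}) q_v^{-iτ})` holds in the quadratic mean over the primes. -/
def Linked (x : HeightOneSpectrum (𝓞 K) → ∀ i, H i) (i j : I) : Prop :=
  ∃ (a : IrrRep (H i)) (b : IrrRep (H j)) (τ ζ : ℝ), 2 ≤ a.dim ∧ 2 ≤ b.dim ∧ (ζ = 1 ∨ ζ = -1) ∧
    Tendsto (davg fun v => ‖a.tr (x v i) - (ζ : ℂ) * conj (b.tr (x v j) *
      (Ideal.absNorm v.asIdeal : ℂ) ^ (-(τ * Complex.I)))‖ ^ 2) (𝓝[>] 0) (𝓝 0)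

end

set_option linter.unusedSectionVars false

section Bridge

open Pool.Agent.T2H24.GR Pool.Agent.TH553.ST Pool.Agent.TH553.RS Pool.Agent.W540.BE

variable {K : Type} [Field K] [NumberField K]

theorem avg_eq (g : HeightOneSpectrum (𝓞 K) → ℂ) : avg g = mn g := by
  funext N
  have hs : ∀ v, v ∈ upto K N ↔ Ideal.absNorm v.asIdeal ≤ N := fun v => mem_upto
  let e : {v : HeightOneSpectrum (𝓞 K) // Ideal.absNorm v.asIdeal ≤ N} ≃ (upto K N) :=
    Equiv.subtypeEquivRight fun v => (hs v).symm
  have hfin : Finite {v : HeightOneSpectrum (𝓞 K) // Ideal.absNorm v.asIdeal ≤ N} :=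
    Finite.of_equiv _ e.symm
  unfold avg mn
  have h1 : (∑ᶠ v : {v : HeightOneSpectrum (𝓞 K) // Ideal.absNorm v.asIdeal ≤ N}, g v.1) =
      ∑ v ∈ upto K N, g v := by
    rw [← Finset.sum_coe_sort, ← finsum_eq_sum_of_fintype, ← finsum_comp_equiv e]
    rfl
  have h2 : Nat.card {v : HeightOneSpectrum (𝓞 K) // Ideal.absNorm v.asIdeal ≤ N} =
      (upto K N).card := by
    rw [Nat.card_congr e, Nat.card_eq_fintype_card, Fintype.card_coe]
  rw [h1, h2, Complex.real_smul, div_eq_inv_mul]
  push_cast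
  rfl

theorem davg_eq (g : HeightOneSpectrum (𝓞 K) → ℝ) (ε : ℝ) :
    davg g ε = EP (nm K) ε g / EP (nm K) ε fun _ => 1 := by
  unfold davg EP
  simp only [one_mul]
  rfl

theorem davg_iff (g : HeightOneSpectrum (𝓞 K) → ℝ) (c : ℝ) :
    Tendsto (davg g) (𝓝[>] 0) (𝓝 c) ↔ Tendsto (qt (nm K) g) (𝓝[>] 0) (𝓝 c) := by
  have h1 := (sysF K).one
  have h2 : ∀ᶠ ε : ℝ in 𝓝[>] 0, (0 : ℝ) < qt (nm K) (fun _ => 1) ε :=
    h1.eventually_const_lt zero_lt_one
  constructor
  · intro h
    have h3 := h.mul h1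
    rw [mul_one] at h3
    refine h3.congr' ?_
    filter_upwards [h2] with ε h4
    rw [davg_eq]
    unfold qt at *
    have h5 : EP (nm K) ε (fun _ => 1) ≠ 0 := by
      intro h6
      rw [h6, zero_div] at h4
      exact lt_irrefl _ h4
    field_simp
  · intro h
    have h3 := h.div h1 one_ne_zero
    rw [div_one] at h3
    refine h3.congr' ?_
    filter_upwards [h2, Pool.Agent.H341R2.lam_tendsto.eventually_gt_atTop 0] with ε h4 h7
    rw [davg_eq]
    unfold qt at *
    have h5 : EP (nm K) ε (fun _ => 1) ≠ 0 := by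
      intro h6
      rw [h6, zero_div] at h4
      exact lt_irrefl _ h4
    simp only [Pi.div_apply]
    field_simp

/-- the homomorphism to the unitary group -/
noncomputable def IrrRep.hom {G : Type} [Group G] [TopologicalSpace G] (π : IrrRep G) :
    G →* Matrix.unitaryGroup (Fin π.dim) ℂ where
  toFun g := ⟨π.rep g, Matrix.mem_unitaryGroup_iff.2 (π.unitary g)⟩
  map_one' := Subtype.ext π.map_one
  map_mul' g h := Subtype.ext (π.map_mul g h)

/-- the same representation for the helper files -/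
noncomputable def IrrRep.toIrr {G : Type} [Group G] [TopologicalSpace G] (π : IrrRep G) : Irr G :=
  ⟨π.dim, π.hom, Continuous.subtype_mk π.continuous_rep _, π.irreducible⟩

/-- and back -/
noncomputable def ofIrr {G : Type} [Group G] [TopologicalSpace G] (r : Irr G) (h : 0 < r.n) :
    IrrRep G where
  dim := r.n
  rep g := (r.ρ g : Matrix (Fin r.n) (Fin r.n) ℂ)
  map_one := by rw [map_one]; rfl
  map_mul g h := by rw [map_mul]; rfl
  unitary g := Matrix.mem_unitaryGroup_iff.1 (r.ρ g).2
  continuous_rep := continuous_subtype_val.comp r.cont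
  pos := h
  irreducible := r.schur

theorem tr_eq {G : Type} [Group G] [TopologicalSpace G] (π : IrrRep G) (g : G) :
    π.tr g = π.toIrr.c g := rfl

theorem ofIrr_tr {G : Type} [Group G] [TopologicalSpace G] (r : Irr G) (h : 0 < r.n) (g : G) :
    (ofIrr r h).tr g = r.c g := rfl

theorem ofIrr_hom {G : Type} [Group G] [TopologicalSpace G] (r : Irr G) (h : 0 < r.n) :
    (ofIrr r h).hom = r.ρ := rfl

variable {I : Type} [Fintype I] [DecidableEq I] {H : I → Type} [∀ i, Group (H i)]
  [∀ i, TopologicalSpace (H i)]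

theorem LFun_eq (x : HeightOneSpectrum (𝓞 K) → ∀ i, H i) (π : ∀ i, IrrRep (H i)) :
    LFun x π = Pool.Agent.T2H24.GR.LT (fun i => (π i).hom) x := rfl

theorem size_eq (x : HeightOneSpectrum (𝓞 K) → ∀ i, H i) (π : ∀ i, IrrRep (H i)) (τ : ℝ) :
    size x π τ = szT (fun i => (π i).hom) x τ := rfl

theorem con_iff (x : HeightOneSpectrum (𝓞 K) → ∀ i, H i) (π : ∀ i, IrrRep (H i)) (τ : ℝ)
    (Λ : ℂ → ℂ) : IsContinuation x π τ Λ ↔ ConT (fun i => (π i).hom) x τ Λ := Iff.rfl

theorem LT_zero {n : I → ℕ} (ρ : ∀ i, H i →* Matrix.unitaryGroup (Fin (n i)) ℂ)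
    (x : HeightOneSpectrum (𝓞 K) → ∀ i, H i) {i : I} (hi : n i = 0) (s : ℂ) :
    Pool.Agent.T2H24.GR.LT ρ x s = 1 := by
  have : IsEmpty (∀ i, Fin (n i)) := ⟨fun f => by
    have h := f i
    rw [hi] at h
    exact Fin.elim0 h⟩
  unfold Pool.Agent.T2H24.GR.LT
  simp only [Matrix.det_isEmpty, inv_one, tprod_one]

theorem linked_iff (x : HeightOneSpectrum (𝓞 K) → ∀ i, H i) (i j : I) :
    Linked x i j ↔ Pool.Agent.T2H24.GR.Linked x i j := by
  constructor
  · rintro ⟨a, b, τ, ζ, ha, hb, hζ, h⟩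
    simp only [tr_eq] at h
    exact ⟨a.toIrr, b.toIrr, τ, ζ, ha, hb, hζ, (davg_iff _ _).1 h⟩
  · rintro ⟨a, b, τ, ζ, ha, hb, hζ, h⟩
    have h2 := (davg_iff _ _).2 h
    simp only [← ofIrr_tr a (by omega), ← ofIrr_tr b (by omega)] at h2
    exact ⟨ofIrr a (by omega), ofIrr b (by omega), τ, ζ, ha, hb, hζ, h2⟩

theorem eq_iff [∀ i, MeasurableSpace (H i)] (x : HeightOneSpectrum (𝓞 K) → ∀ i, H i)
    (μ : ∀ i, Measure (H i)) (J : Finset I) : EquidistributedOn x μ J ↔ EqJ x μ J := by
  unfold EquidistributedOn EqJ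
  simp only [avg_eq]

end Bridge

/-- **From single factors and pairs to products.**  Let `K` be a number field, `H_i`, `i ∈ I`, finitely many
compact groups with their Haar probability measures `μ_i`, and `x_v ∈ ∏ H_i` for the primes `v` of `K`.

I. Suppose that `|I| ≥ 3` and that every proper subfamily is equidistributed.  Then for all irreducible
`π_i`, all `i₀` and all real `τ` one has
`|log |L(⊠ π_i, 1 + iτ + ε)|| ≤ (1 - (M - 1) / (2 (d + 1)²) + o(1)) log (1/ε)` for `ε → 0`, where `d` is the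
dimension and `M = ∫ |tr π_{i₀}|⁴` the fourth moment of `π_{i₀}`; and the exponent is less than one if
`d ≥ 2`.

II. Suppose that the single factors are equidistributed, that all nontrivial characters of `∏ H_i` have
average `0` along `x_v`, and that the `L(⊠ π_i, s)` with irreducible `π_i`, not all trivial, have
meromorphic continuations to neighbourhoods of all points of `Re s = 1`.  Then the following three
statements are equivalent: `x_v` is equidistributed in `∏ H_i`; all pairs are equidistributed; no two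
factors are linked. -/
theorem result (K : Type) [Field K] [NumberField K] (I : Type) [Fintype I] [DecidableEq I]
    (H : I → Type) [∀ i, Group (H i)] [∀ i, TopologicalSpace (H i)]
    [∀ i, IsTopologicalGroup (H i)] [∀ i, CompactSpace (H i)] [∀ i, T2Space (H i)]
    [∀ i, SecondCountableTopology (H i)] [∀ i, MeasurableSpace (H i)] [∀ i, BorelSpace (H i)]
    (μ : ∀ i, Measure (H i)) [∀ i, IsProbabilityMeasure (μ i)] [∀ i, (μ i).IsHaarMeasure]
    (x : HeightOneSpectrum (𝓞 K) → ∀ i, H i) :
    (3 ≤ Fintype.card I → (∀ J : Finset I, J ≠ Finset.univ → EquidistributedOn x μ J) →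
      ∀ (π : ∀ i, IrrRep (H i)) (i₀ : I), (2 ≤ (π i₀).dim → exponent (μ i₀) (π i₀) < 1) ∧
        ∀ τ η : ℝ, 0 < η → ∀ᶠ ε in 𝓝[>] (0 : ℝ),
          |size x π τ ε| ≤ exponent (μ i₀) (π i₀) + η) ∧
    ((∀ i, EquidistributedOn x μ {i}) → CharactersCancel x → HasContinuations x →
      (EquidistributedOn x μ Finset.univ ↔ ∀ i j, i ≠ j → EquidistributedOn x μ {i, j}) ∧
      (EquidistributedOn x μ Finset.univ ↔ ∀ i j, i ≠ j → ¬ Linked x i j)) := by
  refine ⟨fun hI h π i₀ => ⟨fun hd => ?_, fun τ η hη => ?_⟩, fun h1 hab hc => ?_⟩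
  · have h4 : 1 < ∫ g, ‖(π i₀).tr g‖ ^ 4 ∂(μ i₀) := by
      simp only [tr_eq]
      exact Pool.Agent.T2H24.GR.int_four (μ := μ i₀) (π i₀).toIrr.cont (π i₀).toIrr.schur hd
    have h5 : 0 < ((∫ g, ‖(π i₀).tr g‖ ^ 4 ∂(μ i₀)) - 1) / (2 * (((π i₀).dim : ℝ) + 1) ^ 2) := by
      apply div_pos
      · linarith
      · positivity
    unfold exponent
    linarith
  · have h2 := Pool.Agent.T2H24.GR.size_bd (μ := μ) hI
      (fun J hJ => ((eq_iff x μ J).1 (h J hJ)).pl)
      (fun i => (π i).toIrr) (fun i => (π i).pos.ne') i₀ τ hη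
    unfold exponent
    simp only [tr_eq]
    exact h2
  · have hab' : ∀ χ : (∀ i, H i) →* Circle, Continuous χ → (∃ g, χ g ≠ 1) →
        Tendsto (Pool.Agent.TH553.ST.mn fun v => ((χ (x v) : Circle) : ℂ)) atTop (𝓝 0) :=
      fun χ h2 h3 => by
        rw [← avg_eq]
        exact hab χ h2 h3
    have hc' : ∀ r : ∀ i, Pool.Agent.T2H24.GR.Irr (H i), (∃ i, ∃ g, (r i).ρ g ≠ 1) → ∀ τ : ℝ,
        ∃ Λ, Pool.Agent.T2H24.GR.ConT (fun i => (r i).ρ) x τ Λ := by
      intro r hr τ
      by_cases h0 : ∃ i, (r i).n = 0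
      · obtain ⟨i, hi⟩ := h0
        refine ⟨fun _ => 1, MeromorphicAt.const _ _, Filter.Eventually.of_forall fun s _ => ?_⟩
        exact (LT_zero (fun i => (r i).ρ) x hi s).symm
      · push Not at h0
        obtain ⟨i, g, hg⟩ := hr
        obtain ⟨Λ, hΛ⟩ := hc (fun i => ofIrr (r i) (Nat.pos_of_ne_zero (h0 i)))
          ⟨i, g, fun h => hg (Subtype.ext h)⟩ τ
        have h2 := (con_iff _ _ _ _).1 hΛ
        simp only [ofIrr_hom] at h2
        exact ⟨Λ, h2⟩
    have hpl1 : ∀ i, Pool.Agent.T2H24.GR.PL x μ {i} := fun i => ((eq_iff x μ _).1 (h1 i)).pl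
    have hA : EquidistributedOn x μ Finset.univ → ∀ i j, i ≠ j → EquidistributedOn x μ {i, j} :=
      fun h i j _ f hf hcl _ => h f hf hcl fun a b hab => by
        congr 1
        funext k
        exact hab k (Finset.mem_coe.2 (Finset.mem_univ k))
    have hB : (∀ i j, i ≠ j → EquidistributedOn x μ {i, j}) → ∀ i j, i ≠ j → ¬ Linked x i j := by
      intro h i j hij hl
      exact Pool.Agent.T2H24.GR.not_linked (μ := μ) hij ((eq_iff x μ _).1 (h i j hij)).pl
        (hpl1 i) (hpl1 j) ((linked_iff x i j).1 hl)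
    have hC : (∀ i j, i ≠ j → ¬ Linked x i j) → EquidistributedOn x μ Finset.univ := by
      intro h
      refine (eq_iff x μ _).2 ?_
      exact (Pool.Agent.T2H24.GR.goursat hpl1 hab' hc' fun i j hij hl =>
        h i j hij ((linked_iff x i j).2 hl)).eq
    exact ⟨⟨hA, fun h => hC (hB h)⟩, ⟨fun h => hB (hA h), hC⟩⟩

end Pool.Agent.Results.MP_4c4ce6_nt.GoursatRibet
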